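import Mathlib

/-!
Milner's question (1993): a graph with coloring number `n + 1` has a subgraph with coloring
number `n`.
-/

set_option autoImplicit false

namespace Pool.Agent.N374.Mil

open Cardinal

universe u

/-- The coloring number of a graph: the least cardinal `κ` for which the vertex set has a
well-ordering in which every vertex has fewer than `κ` smaller neighbours. -/
noncomputable def col {V : Type u} (G : SimpleGraph V) : Cardinal.{u} :=
  sInf {κ : Cardinal.{u} | ∃ r : V → V → Prop, IsWellOrder V r ∧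
    ∀ x : V, #{y : V // G.Adj x y ∧ r y x} < κ}

/-- `G` has a well-ordering with fewer than `k` smaller neighbours of each vertex. -/
def P {V : Type u} (G : SimpleGraph V) (k : ℕ) : Prop :=
  ∃ r : V → V → Prop, IsWellOrder V r ∧ ∀ x : V, {y : V | G.Adj x y ∧ r y x}.encard < (k : ℕ∞)

theorem encard_lt_iff {V : Type u} (s : Set V) (k : ℕ) :
    s.encard < (k : ℕ∞) ↔ #s < (k : Cardinal.{u}) := by
  rw [Set.encard, ENat.card, Cardinal.toENat_lt_natCast]

theorem P_iff {V : Type u} (G : SimpleGraph V) (k : ℕ) :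
    P G k ↔ ∃ r : V → V → Prop, IsWellOrder V r ∧
      ∀ x : V, #{y : V // G.Adj x y ∧ r y x} < (k : Cardinal.{u}) := by
  unfold P
  simp only [encard_lt_iff]
  rfl

theorem col_mem {V : Type u} (G : SimpleGraph V) :
    ∃ r : V → V → Prop, IsWellOrder V r ∧ ∀ x : V, #{y : V // G.Adj x y ∧ r y x} < col G := by
  have hne : {κ : Cardinal.{u} | ∃ r : V → V → Prop, IsWellOrder V r ∧
      ∀ x : V, #{y : V // G.Adj x y ∧ r y x} < κ}.Nonempty := by
    refine ⟨Order.succ #V, WellOrderingRel, inferInstance, fun x => ?_⟩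
    exact Order.lt_succ_of_le (mk_subtype_le _)
  exact csInf_mem hne

theorem P_of_col_le {V : Type u} {G : SimpleGraph V} {k : ℕ} (h : col G ≤ k) : P G k := by
  rw [P_iff]
  obtain ⟨r, hr, hx⟩ := col_mem G
  exact ⟨r, hr, fun x => (hx x).trans_le h⟩

theorem col_le_of_P {V : Type u} {G : SimpleGraph V} {k : ℕ} (h : P G k) : col G ≤ k := by
  rw [P_iff] at h
  exact csInf_le' h

theorem col_le_iff {V : Type u} {G : SimpleGraph V} {k : ℕ} : col G ≤ k ↔ P G k :=
  ⟨P_of_col_le, col_le_of_P⟩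

theorem col_eq_iff {V : Type u} {G : SimpleGraph V} {k : ℕ} (h1 : P G (k + 1)) (h2 : ¬ P G k) :
    col G = ((k + 1 : ℕ) : Cardinal.{u}) := by
  refine le_antisymm (col_le_of_P h1) ?_
  rw [← col_le_iff, not_le] at h2
  have := Order.succ_le_of_lt h2
  rw [Cardinal.succ_natCast] at this
  exact_mod_cast this

/-- Subgraph monotonicity. -/
theorem P_of_map {V W : Type u} {G : SimpleGraph V} {K : SimpleGraph W} {k : ℕ} (f : W → V)
    (hf : Function.Injective f) (hadj : ∀ a b, K.Adj a b → G.Adj (f a) (f b)) (h : P G k) :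
    P K k := by
  obtain ⟨r, hr, hx⟩ := h
  refine ⟨fun a b => r (f a) (f b), ?_, fun x => ?_⟩
  · exact (RelEmbedding.preimage ⟨f, hf⟩ r).isWellOrder
  · refine lt_of_le_of_lt ?_ (hx (f x))
    refine Set.encard_le_encard_of_injOn (f := f) ?_ hf.injOn
    rintro y ⟨h1, h2⟩
    exact ⟨hadj _ _ h1, h2⟩

theorem P_mono {V : Type u} {G : SimpleGraph V} {k l : ℕ} (hkl : k ≤ l) (h : P G k) : P G l := by
  obtain ⟨r, hr, hx⟩ := h
  exact ⟨r, hr, fun x => (hx x).trans_le (by exact_mod_cast hkl)⟩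

/-- Removing a matching lowers the coloring number by at most one. -/
theorem P_step {V : Type u} {G H : SimpleGraph V} {k : ℕ}
    (hm : ∀ x, {y | G.Adj x y ∧ ¬ H.Adj x y}.Subsingleton) (h : P H k) : P G (k + 1) := by
  obtain ⟨r, hr, hx⟩ := h
  refine ⟨r, hr, fun x => ?_⟩
  have hsub : {y : V | G.Adj x y ∧ r y x} ⊆
      {y | H.Adj x y ∧ r y x} ∪ {y | G.Adj x y ∧ ¬ H.Adj x y} := by
    rintro y ⟨h1, h2⟩
    by_cases hH : H.Adj x y
    · exact Or.inl ⟨hH, h2⟩
    · exact Or.inr ⟨h1, hH⟩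
  have h1 : {y | G.Adj x y ∧ ¬ H.Adj x y}.encard ≤ 1 := Set.encard_le_one_iff_subsingleton.2 (hm x)
  have h2 := hx x
  have h3 : {y : V | H.Adj x y ∧ r y x}.encard + 1 ≤ (k : ℕ∞) := Order.add_one_le_of_lt h2
  calc {y : V | G.Adj x y ∧ r y x}.encard
      ≤ ({y | H.Adj x y ∧ r y x} ∪ {y | G.Adj x y ∧ ¬ H.Adj x y}).encard :=
        Set.encard_le_encard hsub
    _ ≤ {y | H.Adj x y ∧ r y x}.encard + {y | G.Adj x y ∧ ¬ H.Adj x y}.encard :=
        Set.encard_union_le _ _
    _ ≤ {y | H.Adj x y ∧ r y x}.encard + 1 := by gcongr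
    _ ≤ (k : ℕ∞) := h3
    _ < ((k + 1 : ℕ) : ℕ∞) := by exact_mod_cast Nat.lt_succ_self k

/-- A discrete intermediate value argument. -/
theorem descend {V : Type u} {ι : Type*} [DecidableEq ι] (F : Finset ι → SimpleGraph V) (k : ℕ)
    (hstep : ∀ a T, a ∉ T → ∀ x, {y | (F T).Adj x y ∧ ¬ (F (insert a T)).Adj x y}.Subsingleton)
    (h0 : ¬ P (F ∅) (k + 1)) (T : Finset ι) (hT : P (F T) (k + 1)) :
    ∃ T', P (F T') (k + 1) ∧ ¬ P (F T') k := by
  induction T using Finset.induction_on with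
  | empty => exact absurd hT h0
  | insert a T ha ih =>
    by_cases hP : P (F T) (k + 1)
    · exact ih hP
    · refine ⟨insert a T, hT, fun hk => hP ?_⟩
      exact P_step (hstep a T ha) hk

theorem exists_subgraph {V W : Type u} {G : SimpleGraph V} {K : SimpleGraph W} (f : W → V)
    (hf : Function.Injective f) (hadj : ∀ a b, K.Adj a b → G.Adj (f a) (f b)) {k : ℕ}
    (h1 : P K (k + 1)) (h2 : ¬ P K k) :
    ∃ G' : G.Subgraph, col G'.coe = ((k + 1 : ℕ) : Cardinal.{u}) := by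
  let G' : G.Subgraph :=
    { verts := Set.range f
      Adj := fun x y => ∃ a b, f a = x ∧ f b = y ∧ K.Adj a b
      adj_sub := by
        rintro x y ⟨a, b, rfl, rfl, hab⟩
        exact hadj _ _ hab
      edge_vert := by
        rintro x y ⟨a, b, rfl, rfl, hab⟩
        exact ⟨a, rfl⟩
      symm := ⟨by
        rintro x y ⟨a, b, rfl, rfl, hab⟩
        exact ⟨b, a, rfl, rfl, hab.symm⟩⟩ }
  refine ⟨G', col_eq_iff ?_ ?_⟩
  · have hg : ∀ z : G'.verts, ∃ a, f a = z.1 := fun z => z.2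
    choose g hgf using hg
    refine P_of_map (G := K) g ?_ ?_ h1
    · intro z w hzw
      apply Subtype.ext
      rw [← hgf z, ← hgf w, hzw]
    · rintro z w ⟨a, b, ha, hb, hab⟩
      have e1 : g z = a := hf (by rw [hgf, ha])
      have e2 : g w = b := hf (by rw [hgf, hb])
      rwa [e1, e2]
  · intro hk
    refine h2 (P_of_map (G := G'.coe) (fun a => (⟨f a, a, rfl⟩ : G'.verts)) ?_ ?_ hk)
    · intro a b hab
      exact hf (congrArg Subtype.val hab)
    · intro a b hab
      exact ⟨a, b, rfl, rfl, hab⟩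

/-- The finite case. -/
theorem finite_case {V : Type u} {G : SimpleGraph V} (Y : Finset V) {k : ℕ}
    (h : ¬ P (G.induce (Y : Set V)) k) :
    ∃ G' : G.Subgraph, col G'.coe = ((k + 1 : ℕ) : Cardinal.{u}) := by
  classical
  let K := G.induce (Y : Set V)
  have key : ∃ K' : SimpleGraph (Y : Set V), K' ≤ K ∧ P K' (k + 1) ∧ ¬ P K' k := by
    by_cases hK : P K (k + 1)
    · exact ⟨K, le_rfl, hK, h⟩
    · have hfin : K.edgeSet.Finite := Set.toFinite _
      have hstep : ∀ (a : Sym2 (Y : Set V)) (T : Finset (Sym2 (Y : Set V))), a ∉ T → ∀ x,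
          {y | (K.deleteEdges (T : Set (Sym2 (Y : Set V)))).Adj x y ∧
            ¬ (K.deleteEdges ((insert a T : Finset (Sym2 (Y : Set V))) :
              Set (Sym2 (Y : Set V)))).Adj x y}.Subsingleton := by
        intro a T _ x y hy z hz
        have hh : ∀ w, w ∈ {y | (K.deleteEdges (T : Set (Sym2 (Y : Set V)))).Adj x y ∧
            ¬ (K.deleteEdges ((insert a T : Finset (Sym2 (Y : Set V))) :
              Set (Sym2 (Y : Set V)))).Adj x y} → s(x, w) = a := by
          rintro w ⟨hw1, hw2⟩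
          rw [SimpleGraph.deleteEdges_adj] at hw1 hw2
          by_contra hne
          apply hw2
          refine ⟨hw1.1, ?_⟩
          rw [Finset.coe_insert, Set.mem_insert_iff]
          rintro (h | h)
          · exact hne h
          · exact hw1.2 h
        have e3 : s(x, y) = s(x, z) := (hh y hy).trans (hh z hz).symm
        exact Sym2.congr_right.1 e3
      have h0 : ¬ P (K.deleteEdges ((∅ : Finset (Sym2 (Y : Set V))) :
          Set (Sym2 (Y : Set V)))) (k + 1) := by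
        simpa using hK
      have hT : P (K.deleteEdges (hfin.toFinset : Set (Sym2 (Y : Set V)))) (k + 1) := by
        refine ⟨WellOrderingRel, inferInstance, fun x => ?_⟩
        have : {y | (K.deleteEdges (hfin.toFinset : Set (Sym2 (Y : Set V)))).Adj x y ∧
            WellOrderingRel y x} = ∅ := by
          rw [Set.eq_empty_iff_forall_notMem]
          rintro y ⟨hy1, _⟩
          rw [SimpleGraph.deleteEdges_adj, Set.Finite.coe_toFinset] at hy1
          exact hy1.2 ((SimpleGraph.mem_edgeSet K).2 hy1.1)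
        rw [this, Set.encard_empty]
        exact_mod_cast Nat.succ_pos k
      obtain ⟨T', h1, h2⟩ := descend
        (fun T : Finset (Sym2 (Y : Set V)) => K.deleteEdges (T : Set (Sym2 (Y : Set V))))
        k hstep h0 hfin.toFinset hT
      exact ⟨_, K.deleteEdges_le _, h1, h2⟩
  obtain ⟨K', hle, h1, h2⟩ := key
  exact exists_subgraph (G := G) (K := K') Subtype.val Subtype.val_injective
    (fun a b hab => hle hab) h1 h2

/-- A bound on the number of edges inside a finite set of vertices, in the form of an auxiliary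
relation. -/
theorem exists_rel {V : Type u} {G : SimpleGraph V} {k : ℕ} (Y : Finset V)
    (h : P (G.induce (Y : Set V)) k) [DecidableRel G.Adj] :
    ∃ q : V → V → Prop, ∃ _ : DecidableRel q, (∀ a ∈ Y, ∀ b ∈ Y, a ≠ b → q a b ∨ q b a) ∧
      ∀ b ∈ Y, (Y.filter (fun a => G.Adj b a ∧ q a b)).card + 1 ≤ k := by
  classical
  obtain ⟨r, hr, hx⟩ := h
  refine ⟨fun a b => ∃ (ha : a ∈ (Y : Set V)) (hb : b ∈ (Y : Set V)), r ⟨a, ha⟩ ⟨b, hb⟩,
    Classical.decRel _, ?_, ?_⟩
  · intro a ha b hb hab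
    have hne : (⟨a, ha⟩ : (Y : Set V)) ≠ ⟨b, hb⟩ := fun e => hab (congrArg Subtype.val e)
    rcases trichotomous_of r (⟨a, ha⟩ : (Y : Set V)) ⟨b, hb⟩ with h | h | h
    · exact Or.inl ⟨ha, hb, h⟩
    · exact absurd h hne
    · exact Or.inr ⟨hb, ha, h⟩
  · intro b hb
    have h1 := hx ⟨b, hb⟩
    have h2 : ((Y.filter (fun a => G.Adj b a ∧ ∃ (ha : a ∈ (Y : Set V)) (hb : b ∈ (Y : Set V)),
        r ⟨a, ha⟩ ⟨b, hb⟩) : Finset V) : Set V).encard ≤
        {y : (Y : Set V) | (G.induce (Y : Set V)).Adj ⟨b, hb⟩ y ∧ r y ⟨b, hb⟩}.encard := by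
      have : ((Y.filter (fun a => G.Adj b a ∧ ∃ (ha : a ∈ (Y : Set V)) (hb : b ∈ (Y : Set V)),
        r ⟨a, ha⟩ ⟨b, hb⟩) : Finset V) : Set V) ⊆ Subtype.val ''
        {y : (Y : Set V) | (G.induce (Y : Set V)).Adj ⟨b, hb⟩ y ∧ r y ⟨b, hb⟩} := by
        intro a ha
        rw [Finset.mem_coe, Finset.mem_filter] at ha
        obtain ⟨haY, hadj, ha', hb', hr'⟩ := ha
        exact ⟨⟨a, ha'⟩, ⟨hadj, hr'⟩, rfl⟩
      calc _ ≤ _ := Set.encard_le_encard this
        _ ≤ _ := Set.encard_image_le _ _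
    rw [Set.encard_coe_eq_coe_finsetCard] at h2
    have h3 := lt_of_le_of_lt h2 h1
    have h4 : (Y.filter (fun a => G.Adj b a ∧ ∃ (ha : a ∈ (Y : Set V)) (hb : b ∈ (Y : Set V)),
        r ⟨a, ha⟩ ⟨b, hb⟩)).card < k := by exact_mod_cast h3
    refine Nat.succ_le_of_lt ?_
    convert h4

/-- Hall's condition. -/
theorem hall_cond {V : Type u} [DecidableEq V] {G : SimpleGraph V} {k : ℕ}
    (hfin : ∀ Y : Finset V, P (G.induce (Y : Set V)) k) (r : V → V → Prop)
    (hasymm : ∀ a b, r a b → ¬ r b a) (N : V → Finset V)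
    (hN : ∀ x y, y ∈ N x ↔ G.Adj x y ∧ r y x) (X : Finset V) (hX : ∀ x ∈ X, (N x).card = k + 1) :
    X.card ≤ k * (X.biUnion N).card := by
  classical
  set Y := X ∪ X.biUnion N with hY
  obtain ⟨q, hqd, hq1, hq2⟩ := exists_rel Y (hfin Y)
  have hB : (Y.sigma (fun b => Y.filter (fun a => G.Adj b a ∧ q a b))).card + Y.card
      ≤ k * Y.card := by
    rw [Finset.card_sigma]
    calc ∑ b ∈ Y, (Y.filter (fun a => G.Adj b a ∧ q a b)).card + Y.card
        = ∑ b ∈ Y, ((Y.filter (fun a => G.Adj b a ∧ q a b)).card + 1) := by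
          rw [Finset.sum_add_distrib]; simp
      _ ≤ ∑ b ∈ Y, k := Finset.sum_le_sum hq2
      _ = k * Y.card := by rw [Finset.sum_const, smul_eq_mul, mul_comm]
  have hA : (X.sigma N).card = (k + 1) * X.card := by
    rw [Finset.card_sigma, Finset.sum_congr rfl hX, Finset.sum_const, smul_eq_mul, mul_comm]
  have hAB : (X.sigma N).card ≤
      (Y.sigma (fun b => Y.filter (fun a => G.Adj b a ∧ q a b))).card := by
    refine Finset.card_le_card_of_injOn
      (fun p : (_ : V) × V => if q p.2 p.1 then (⟨p.1, p.2⟩ : (_ : V) × V) else ⟨p.2, p.1⟩) ?_ ?_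
    · rintro ⟨v, u⟩ hp
      have hp' := Finset.mem_sigma.1 (Finset.mem_coe.1 hp)
      have hv : v ∈ X := hp'.1
      have hu : u ∈ N v := hp'.2
      have hvY : v ∈ Y := Finset.mem_union_left _ hv
      have huY : u ∈ Y := Finset.mem_union_right _ (Finset.mem_biUnion.2 ⟨v, hv, hu⟩)
      have hadj := ((hN v u).1 hu).1
      by_cases hc : q u v
      · simp only [hc, if_true]
        exact Finset.mem_coe.2 (Finset.mem_sigma.2 ⟨hvY, Finset.mem_filter.2 ⟨huY, hadj, hc⟩⟩)
      · simp only [hc, if_false]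
        have hc' : q v u := (hq1 v hvY u huY hadj.ne).resolve_right hc
        exact Finset.mem_coe.2
          (Finset.mem_sigma.2 ⟨huY, Finset.mem_filter.2 ⟨hvY, hadj.symm, hc'⟩⟩)
    · rintro ⟨v, u⟩ hp ⟨v', u'⟩ hp' he
      have h1 := ((hN v u).1 (Finset.mem_sigma.1 (Finset.mem_coe.1 hp)).2).2
      have h2 := ((hN v' u').1 (Finset.mem_sigma.1 (Finset.mem_coe.1 hp')).2).2
      by_cases hc : q u v <;> by_cases hc' : q u' v' <;>
        simp only [hc, hc', if_true, if_false, Sigma.mk.injEq, heq_eq_eq] at he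
      · rw [he.1, he.2]
      · exact absurd h2 (hasymm _ _ (by rw [← he.1, ← he.2]; exact h1))
      · exact absurd h2 (hasymm _ _ (by rw [← he.1, ← he.2]; exact h1))
      · rw [he.1, he.2]
  have hYc : Y.card ≤ X.card + (X.biUnion N).card := Finset.card_union_le _ _
  have h1 : (k + 1) * X.card + Y.card ≤ k * Y.card := by omega
  have h2 : k * Y.card ≤ k * (X.card + (X.biUnion N).card) := Nat.mul_le_mul_left _ hYc
  nlinarith

/-- The infinite case: every finite induced subgraph has small coloring number. -/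
theorem infinite_case {V : Type u} {G : SimpleGraph V} {k : ℕ}
    (hfin : ∀ Y : Finset V, P (G.induce (Y : Set V)) k) (h2 : P G (k + 2)) (h1 : ¬ P G (k + 1)) :
    ∃ G' : G.Subgraph, col G'.coe = ((k + 1 : ℕ) : Cardinal.{u}) := by
  classical
  obtain ⟨r, hr, hx⟩ := h2
  have hasymm : ∀ a b, r a b → ¬ r b a := fun a b => asymm_of r
  have hfinb : ∀ x, {y : V | G.Adj x y ∧ r y x}.Finite := fun x =>
    Set.encard_lt_top_iff.1 ((hx x).trans_le le_top)
  let N : V → Finset V := fun x => (hfinb x).toFinset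
  have hN : ∀ x y, y ∈ N x ↔ G.Adj x y ∧ r y x := by
    intro x y
    simp [N]
  have hNcard : ∀ x, (N x).card ≤ k + 1 := by
    intro x
    have h3 := hx x
    rw [(hfinb x).encard_eq_coe_toFinset_card] at h3
    have h4 : (N x).card < k + 2 := by exact_mod_cast h3
    omega
  let S : Set V := {x | (N x).card = k + 1}
  let t : S → Finset (V × Fin k) := fun v => (N v.1) ×ˢ Finset.univ
  have hall : ∀ s : Finset S, s.card ≤ (s.biUnion t).card := by
    intro s
    have e1 : s.biUnion t = ((s.map (Function.Embedding.subtype _)).biUnion N) ×ˢ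
        (Finset.univ : Finset (Fin k)) := by
      ext ⟨a, i⟩
      simp [t]
    rw [e1, Finset.card_product, Finset.card_univ, Fintype.card_fin, mul_comm]
    have h3 := hall_cond hfin r hasymm N hN (s.map (Function.Embedding.subtype _)) (by
      intro x hx
      rw [Finset.mem_map] at hx
      obtain ⟨y, _, rfl⟩ := hx
      exact y.2)
    rwa [Finset.card_map] at h3
  obtain ⟨f, hfinj, hft⟩ := (Finset.all_card_le_biUnion_card_iff_exists_injective t).1 hall
  have hfN : ∀ v : S, (f v).1 ∈ N v.1 := fun v => (Finset.mem_product.1 (hft v)).1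
  have hfr : ∀ v : S, r (f v).1 v.1 := fun v => ((hN _ _).1 (hfN v)).2
  -- the parity colouring
  have hwf : WellFounded r := hr.toIsWellFounded.wf
  let c : V → Fin k → Bool := hwf.fix (fun x ih i =>
    if h : ∃ hx : x ∈ S, (f ⟨x, hx⟩).2 = i then !(ih (f ⟨x, h.1⟩).1 (hfr ⟨x, h.1⟩) i) else false)
  have hc : ∀ x (hx : x ∈ S), c x (f ⟨x, hx⟩).2 = !(c (f ⟨x, hx⟩).1 (f ⟨x, hx⟩).2) := by
    intro x hx
    have h3 : c x = _ := hwf.fix_eq _ x
    rw [h3]
    have h4 : ∃ hx' : x ∈ S, (f ⟨x, hx'⟩).2 = (f ⟨x, hx⟩).2 := ⟨hx, rfl⟩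
    beta_reduce
    rw [dif_pos h4]
  let D : Finset (Fin k × Bool) → V → V → Prop := fun T v w =>
    ∃ hv : v ∈ S, (f ⟨v, hv⟩).1 = w ∧ ((f ⟨v, hv⟩).2, c v (f ⟨v, hv⟩).2) ∈ T
  let F : Finset (Fin k × Bool) → SimpleGraph V := fun T =>
    { Adj := fun x y => G.Adj x y ∧ ¬ D T x y ∧ ¬ D T y x
      symm := ⟨fun x y h => ⟨h.1.symm, h.2.2, h.2.1⟩⟩
      loopless := ⟨fun x h => G.loopless.irrefl x h.1⟩ }
  have hF0 : F ∅ = G := by
    ext x y
    constructor
    · exact fun h => h.1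
    · refine fun h => ⟨h, ?_, ?_⟩
      · rintro ⟨_, _, h⟩
        exact absurd h (Finset.notMem_empty _)
      · rintro ⟨_, _, h⟩
        exact absurd h (Finset.notMem_empty _)
  have h0 : ¬ P (F ∅) (k + 1) := by rwa [hF0]
  have hT : P (F Finset.univ) (k + 1) := by
    refine ⟨r, hr, fun x => ?_⟩
    by_cases hxS : x ∈ S
    · have hsub : {y | (F Finset.univ).Adj x y ∧ r y x} ⊆
          (((N x).erase (f ⟨x, hxS⟩).1 : Finset V) : Set V) := by
        rintro y ⟨⟨h3, h4, _⟩, h6⟩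
        rw [Finset.mem_coe, Finset.mem_erase]
        refine ⟨?_, (hN x y).2 ⟨h3, h6⟩⟩
        rintro rfl
        exact h4 ⟨hxS, rfl, Finset.mem_univ _⟩
      refine lt_of_le_of_lt (Set.encard_le_encard hsub) ?_
      rw [Set.encard_coe_eq_coe_finsetCard, Finset.card_erase_of_mem (hfN ⟨x, hxS⟩)]
      have h5 : (N x).card = k + 1 := hxS
      rw [h5]
      exact_mod_cast Nat.lt_succ_self k
    · have hsub : {y | (F Finset.univ).Adj x y ∧ r y x} ⊆ ((N x : Finset V) : Set V) := by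
        rintro y ⟨⟨h3, _, _⟩, h6⟩
        exact (hN x y).2 ⟨h3, h6⟩
      refine lt_of_le_of_lt (Set.encard_le_encard hsub) ?_
      rw [Set.encard_coe_eq_coe_finsetCard]
      have h5 : (N x).card < k + 1 := lt_of_le_of_ne (hNcard x) hxS
      exact_mod_cast h5
  have hstep : ∀ a T, a ∉ T → ∀ x,
      {y | (F T).Adj x y ∧ ¬ (F (insert a T)).Adj x y}.Subsingleton := by
    intro a T _ x
    have hh : ∀ w, w ∈ {y | (F T).Adj x y ∧ ¬ (F (insert a T)).Adj x y} →
        (∃ hv : x ∈ S, (f ⟨x, hv⟩).1 = w ∧ ((f ⟨x, hv⟩).2, c x (f ⟨x, hv⟩).2) = a) ∨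
        (∃ hv : w ∈ S, (f ⟨w, hv⟩).1 = x ∧ ((f ⟨w, hv⟩).2, c w (f ⟨w, hv⟩).2) = a) := by
      rintro w ⟨⟨g1, g2, g3⟩, g4⟩
      by_contra hcon
      rw [not_or] at hcon
      refine g4 ⟨g1, ?_, ?_⟩
      · rintro ⟨hv, e1, e2⟩
        rcases Finset.mem_insert.1 e2 with e3 | e3
        · exact hcon.1 ⟨hv, e1, e3⟩
        · exact g2 ⟨hv, e1, e3⟩
      · rintro ⟨hv, e1, e2⟩
        rcases Finset.mem_insert.1 e2 with e3 | e3
        · exact hcon.2 ⟨hv, e1, e3⟩
        · exact g3 ⟨hv, e1, e3⟩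
    have hmix : ∀ w, (∃ hv : x ∈ S, ((f ⟨x, hv⟩).2, c x (f ⟨x, hv⟩).2) = a) →
        (∃ hv : w ∈ S, (f ⟨w, hv⟩).1 = x ∧ ((f ⟨w, hv⟩).2, c w (f ⟨w, hv⟩).2) = a) → False := by
      rintro w ⟨hxS, e1⟩ ⟨hwS, e2, e3⟩
      have e4 := hc w hwS
      rw [e2] at e4
      have e5 : (f ⟨w, hwS⟩).2 = (f ⟨x, hxS⟩).2 := by
        have := congrArg Prod.fst (e3.trans e1.symm)
        exact this
      have e6 : c w (f ⟨w, hwS⟩).2 = c x (f ⟨x, hxS⟩).2 := by
        have := congrArg Prod.snd (e3.trans e1.symm)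
        exact this
      rw [e6, e5] at e4
      exact absurd e4 (by cases c x (f ⟨x, hxS⟩).2 <;> simp)
    intro y hy z hz
    rcases hh y hy with ⟨a1, a2, a3⟩ | ⟨a1, a2, a3⟩ <;>
      rcases hh z hz with ⟨b1, b2, b3⟩ | ⟨b1, b2, b3⟩
    · exact a2.symm.trans b2
    · exact (hmix z ⟨a1, a3⟩ ⟨b1, b2, b3⟩).elim
    · exact (hmix y ⟨b1, b3⟩ ⟨a1, a2, a3⟩).elim
    · have e1 : f ⟨y, a1⟩ = f ⟨z, b1⟩ := by
        apply Prod.ext
        · rw [a2, b2]
        · exact congrArg Prod.fst (a3.trans b3.symm)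
      exact congrArg Subtype.val (hfinj e1)
  obtain ⟨T', h3, h4⟩ := descend F k hstep h0 Finset.univ hT
  exact exists_subgraph (G := G) (K := F T') id Function.injective_id (fun a b hab => hab.1) h3 h4

/-- A graph with coloring number `n + 1` has a subgraph with coloring number `n`. -/
theorem main {V : Type u} (G : SimpleGraph V) (n : ℕ)
    (h : col G = ((n + 1 : ℕ) : Cardinal.{u})) :
    ∃ G' : G.Subgraph, col G'.coe = (n : Cardinal.{u}) := by
  rcases n with _ | k
  · refine ⟨⊥, le_antisymm ?_ (by simp)⟩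
    refine col_le_of_P ⟨WellOrderingRel, inferInstance, fun x => ?_⟩
    exact x.2.elim
  · have h2 : P G (k + 2) := P_of_col_le h.le
    have h1 : ¬ P G (k + 1) := by
      intro h1
      have h3 := col_le_of_P h1
      rw [h] at h3
      have h4 : k + 1 + 1 ≤ k + 1 := by exact_mod_cast h3
      omega
    by_cases hfin : ∀ Y : Finset V, P (G.induce (Y : Set V)) k
    · exact infinite_case hfin h2 h1
    · obtain ⟨Y, hY⟩ := not_forall.1 hfin
      exact finite_case Y hY

end Pool.Agent.N374.Mil
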